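import Mathlib
import Pool.Agent.Y826.ZC.Cons

/-!
# Every admissible 45-tuple contains two primes

`DHL[45,2]`: for every admissible set of 45 integers `a i` there are many `n` such that at least two of the
numbers `n + a i` are prime and no other number of the interval which they span is prime. The numbers known
before are 50 (Polymath 2014) and 49 (starting files). The new ingredient is an equidistribution theorem for
the primes beyond the level `1/2`, for moduli with factors of prescribed sizes (which need not be smooth) and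
residue classes coming from several shifts (`Pool.Agent.Y826.Z.s_zz`), which is used for those pairs of cells
of the sieve weight which have enough small coordinates.
-/

set_option autoImplicit false

namespace Pool.Agent.Results.MP_8923e7_nt.AnyFortyFive

theorem aux {P : ℕ → Prop} {_ : DecidablePred P} {x c : ℝ} (hx : 0 ≤ x)
    (h : c ≤ (((Finset.Icc 1 ⌊x⌋₊).filter (fun n : ℕ => P n)).card : ℝ)) :
    c ≤ (Set.ncard {n : ℕ | 1 ≤ n ∧ (n : ℝ) ≤ x ∧ P n} : ℝ) := by
  have hS : {n : ℕ | 1 ≤ n ∧ (n : ℝ) ≤ x ∧ P n} =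
      (((Finset.Icc 1 ⌊x⌋₊).filter (fun n : ℕ => P n) : Finset ℕ) : Set ℕ) := by
    ext n
    simp only [Set.mem_ofPred_eq, Finset.coe_filter, Finset.mem_Icc, Nat.le_floor_iff hx, and_assoc]
  rw [hS, Set.ncard_coe_finset]
  exact h

/-- For all distinct integers `a 0, ..., a 44` which do not meet all residue classes modulo any prime, and all
`ε > 0`, for all large `x` there are at least `x ^ (1 - ε)` integers `1 ≤ n ≤ x` such that two of the numbers
`n + a i` are prime and every prime between the least and the largest of the `n + a i` is one of them. -/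
theorem result (a : Fin 45 → ℤ) (ha : Function.Injective a)
    (hadm : ∀ p : ℕ, p.Prime → ∃ r : ℤ, ∀ i, ¬ (p : ℤ) ∣ r + a i) (ε : ℝ) (hε : 0 < ε) :
    ∀ᶠ x : ℝ in Filter.atTop,
      x ^ (1 - ε) ≤ (Set.ncard {n : ℕ | 1 ≤ n ∧ (n : ℝ) ≤ x ∧
        (∃ i j, i ≠ j ∧ ∃ p q : ℕ, p.Prime ∧ q.Prime ∧ (p : ℤ) = n + a i ∧ (q : ℤ) = n + a j) ∧
        ∀ p : ℕ, p.Prime → (∃ i j, (n : ℤ) + a i ≤ p ∧ (p : ℤ) ≤ n + a j) → ∃ i, (p : ℤ) = n + a i} : ℝ) := by
  filter_upwards [Pool.Agent.Y826.ZC.dhl45_consecutive a ha hadm ε hε, Filter.eventually_ge_atTop (0 : ℝ)]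
    with x h hx
  exact aux hx h

end Pool.Agent.Results.MP_8923e7_nt.AnyFortyFive
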