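import Pool.Agent.Y877.Tuples

/-!
# Almost every tuple of shifts has a bounded multiple which satisfies the prime tuples conjecture

For every `k` there is `L` such that for every `ε > 0`, in EVERY cube `∏ (u_l, u_l + H]` of side
`H ≥ C(ε)`, all but `ε H ^ k` of the integer vectors `h = (h_1, ..., h_k)` have one of the multiples
`d h`, `1 ≤ d ≤ L`, such that `p, p + d h_1, ..., p + d h_k` are all primes, for at least `x ^ (1 - η)`
primes `p`, at every large scale `x`. The theorem is uniform: the primes are in `[x, (1 + s) x]` and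
`p ≡ a (mod q)`, the multiples are `d q b h` with an arbitrary `b ≥ 1`, and `x ≥ x₀(q, η)` may be as small
as a constant times `q² b` times the largest coordinate of the cube.

So the vectors none of whose multiples `h, 2 h, ..., L h` satisfies the conjecture have upper Banach density
zero in `ℤ ^ k`.

Proof: the words of length `N` over `k + 1` letters, each with a set of shifts; by the coloured
Maynard-Tao theorem of the starting files a quarter of the words contain primes at the same time, and by the
density Hales-Jewett theorem these contain a combinatorial line; if a positive proportion of the `h` were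
bad, a multidimensional Szemeredi-Varnavides argument would give sets of shifts for which the differences
along ALL combinatorial lines are multiples of bad vectors.
-/

set_option autoImplicit false

namespace Pool.Agent.Results.MP_8923e7_nt.MultiplesOfAlmostAllTuples

open Finset Filter

/-- The number of the primes `p ≡ a (mod q)` in `[x, (1 + s) x]` for which `p + v l` is a prime in
`[x, (1 + s) x]` for every `l`. -/
noncomputable def pat {k : ℕ} (s : ℝ) (x q a : ℕ) (v : Fin k → ℤ) : ℕ :=
  {p : ℕ | p.Prime ∧ p ≡ a [MOD q] ∧ (x : ℝ) ≤ p ∧ (p : ℝ) ≤ (1 + s) * x ∧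
    ∀ l, ∃ p' : ℕ, p'.Prime ∧ (p' : ℤ) = p + v l ∧ (x : ℝ) ≤ p' ∧ (p' : ℝ) ≤ (1 + s) * x}.ncard

open Classical in
theorem result (k : ℕ) : ∃ L : ℕ, ∀ ε s : ℝ, 0 < ε → 0 < s → ∃ C : ℕ, ∀ q : ℕ, 1 ≤ q →
    ∀ η : ℝ, 0 < η → ∀ᶠ x : ℕ in atTop, ∀ a : ℕ, a.Coprime q → ∀ b : ℕ, 1 ≤ b →
    ∀ (U H : ℕ) (u : Fin k → ℤ), (∀ l, |u l| ≤ U) → C ≤ H → C * (q ^ 2 * b * (U + H)) ≤ x →
    (1 - ε) * (H : ℝ) ^ k ≤ (((Fintype.piFinset (fun l => Ioc (u l) (u l + H))).filter
      (fun h => ∃ d : ℕ, 1 ≤ d ∧ d ≤ L ∧
        (x : ℝ) ^ (1 - η) ≤ pat s x q a (fun l => ((d * (q * b) : ℕ) : ℤ) * h l))).card : ℝ) :=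
  Pool.Agent.Y877.tuples k

end Pool.Agent.Results.MP_8923e7_nt.MultiplesOfAlmostAllTuples
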