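import Mathlib
import Pool.Agent.Y827.HN.Fin

/-!
# All patterns of primes and composites along narrow progressions for the proportion `(5/18)^k` of all tuples

For all `k` and `ε > 0` there are `z` and `n₀` with the following property. Let `q ≥ 1` and let `V` be a set of at
least `n₀` natural numbers with all `b + v`, `v ∈ V`, prime to `q` which misses a residue class modulo every prime
`p ≤ z` not dividing `q`. There is one family `G` of at least `(δ - ε) |V| ^ (k+1)` ordered `(k+1)`-tuples `a` of
distinct elements of `V` such that for every length `l` and every radius `R` there are `C` and arbitrarily large `N`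
such that EVERY `a` in `G` and EVERY set `J` of indices have a difference `1 ≤ d ≤ (log N) ^ C` with: for at least
`N / (log N) ^ C` integers `n ≤ N` all `l` numbers `m = n, n + d, ..., n + (l-1) d` have the properties

* `m ≡ b` modulo `q`;
* among `m + a_0, ..., m + a_k` exactly those with index in `J` are prime;
* all primes in `[m - R, m + R]` are in `m + V`.

Moreover at EVERY large `N` at least `(δ - ε) |V| ^ (k+1)` tuples (depending on `N`) have this property.
Here `δ = (5/18) ^ k`, and `δ = 1/3` for `k = 1`.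

Proof: in the coloured Maynard-Tao theorem with the constant `18/5` along narrow progressions
(`Pool.Agent.Y827.RO.narR`) one further element of each class, and all integers near `m` outside `m + V`, are made
composite by congruences modulo large primes (`Pool.Agent.Y827.HN.forced`). By Erdős's box lemma one may assume that
all transversals of the classes have the same patterns; replacing elements which are prime by the further element of
their class one obtains all patterns (`Pool.Agent.Y827.HN.patR`).
-/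

set_option autoImplicit false

namespace Pool.Agent.Results.MP_8923e7_nt.NarrowPatterns

open Filter Finset

/-- the proportion: `1 / 3` for pairs, `(5 / 18) ^ k` for `(k + 1)`-tuples -/
noncomputable def proportion (k : ℕ) : ℝ := if k = 1 then 1 / 3 else (5 / 18) ^ k

open Classical in
/-- the number of the `1 ≤ n ≤ N` such that for each `m = n, n + d, ..., n + (l - 1) d`: `m ≡ b` modulo `q`,
exactly those `m + a i` with `i ∈ J` are prime, and every prime in `[m - R, m + R]` is in `m + V` -/
noncomputable def starts {k : ℕ} (V : Finset ℕ) (a : Fin (k + 1) → ℕ) (J : Finset (Fin (k + 1)))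
    (q b R l d N : ℕ) : ℕ :=
  ((Icc 1 N).filter (fun n : ℕ => ∀ j < l, n + j * d ≡ b [MOD q] ∧
    (∀ i, (n + j * d + a i).Prime ↔ i ∈ J) ∧
    ∀ x : ℕ, x.Prime → n + j * d ≤ x + R → x ≤ n + j * d + R → ∃ v ∈ V, x = n + j * d + v)).card

theorem result (k : ℕ) (ε : ℝ) (hε : 0 < ε) : ∃ z n₀ : ℕ,
    ∀ (q b : ℕ) (V : Finset ℕ), 0 < q → (∀ v ∈ V, Nat.Coprime (b + v) q) →
      (∀ p : ℕ, p ≤ z → p.Prime → ¬ p ∣ q → ∃ r : ℕ, ∀ v ∈ V, ¬ v ≡ r [MOD p]) → n₀ ≤ V.card →
      (∃ G : Finset (Fin (k + 1) → ℕ),
        (∀ a ∈ G, (∀ i, a i ∈ V) ∧ Function.Injective a) ∧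
        (proportion k - ε) * (V.card : ℝ) ^ (k + 1) ≤ (G.card : ℝ) ∧
        ∀ l R : ℕ, ∃ C : ℕ, ∃ᶠ N : ℕ in atTop, ∀ a ∈ G, ∀ J : Finset (Fin (k + 1)), ∃ d : ℕ, 1 ≤ d ∧
          (d : ℝ) ≤ (Real.log N) ^ C ∧
          (N : ℝ) / (Real.log N) ^ C ≤ (starts V a J q b R l d N : ℝ)) ∧
      ∀ l R : ℕ, ∃ C : ℕ, ∀ᶠ N : ℕ in atTop, ∃ G : Finset (Fin (k + 1) → ℕ),
        (∀ a ∈ G, (∀ i, a i ∈ V) ∧ Function.Injective a) ∧
        (proportion k - ε) * (V.card : ℝ) ^ (k + 1) ≤ (G.card : ℝ) ∧
        ∀ a ∈ G, ∀ J : Finset (Fin (k + 1)), ∃ d : ℕ, 1 ≤ d ∧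
          (d : ℝ) ≤ (Real.log N) ^ C ∧
          (N : ℝ) / (Real.log N) ^ C ≤ (starts V a J q b R l d N : ℝ) :=
  Pool.Agent.Y827.HN.finP k ε hε

end Pool.Agent.Results.MP_8923e7_nt.NarrowPatterns
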