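import Mathlib
import Pool.Agent.Y822.V.Main
import Pool.Agent.Y978.QL.Prm
import Pool.Agent.Y822.Q.Int
import Pool.Agent.Y822.F.Out

set_option autoImplicit false

/-!
# More than a quarter of the members of almost every tuple are simultaneously prime

The prime `k`-tuples conjecture asks for `n` such that all the numbers `n + h`, `h ∈ H`, are prime. For all but
few of the `k`-element subsets `H` of an arbitrary, also sparse, set of shifts in `[0, N]` there are `n ≤ N`, in
the expected number up to a constant, such that at least `51 k / 200` of the numbers `n + h` are prime and all of them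
are almost primes: two primes for almost all 4-tuples.
-/

namespace Pool.Agent.Results.MP_8923e7_nt.OverAQuarterOfAlmostAllTuples

open Finset Filter
open Pool.Agent.H387R2.Uni

open Classical in
/-- The number of `1 ≤ n ≤ N` such that at least `51 |H| / 200` of the numbers `n + h`, `h ∈ H`, are prime, and all of
them have at most `r` prime factors, counted with multiplicity, all of them larger than `y`. -/
noncomputable def count (H : Finset ℕ) (r : ℕ) (y : ℝ) (N : ℕ) : ℕ :=
  ((Icc 1 N).filter (fun n => 51 * H.card ≤ 200 * (H.filter (fun h => (n + h).Prime)).card ∧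
    ∀ h ∈ H, (n + h).primeFactorsList.length ≤ r ∧ ∀ q : ℕ, q.Prime → q ∣ n + h → y < q)).card

open Pool.Agent.Y822 Pool.Agent.Y822.V

open Classical in
theorem result :
    -- the conjectured constants are convergent products, positive for admissible patterns
    (∀ H : Finset ℕ, HasProd (fun p : Nat.Primes => locT H p) (CT H) ∧ (Adm H → 0 < CT H)) ∧
    -- more than a quarter of the members of almost every tuple are prime
    ∀ k : ℕ, 2 ≤ k → ∃ δ : ℝ, 0 < δ ∧ ∃ r : ℕ, ∃ c : ℝ, 0 < c ∧ ∃ B N₀ : ℕ, ∀ N : ℕ, N₀ ≤ N →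
      ∀ A : Finset ℕ, (∀ a ∈ A, a ≤ N) →
        (((A.powersetCard k).filter (fun H => Adm H ∧
          (count H r ((N : ℝ) ^ δ) N : ℝ) < c * CT H * (N / Real.log N ^ k))).card : ℝ) ≤
          A.card.choose (k - 1) * Real.log N ^ B := by
  refine ⟨fun H => ⟨CT_hasProd _, fun hA => ?_⟩, fun k hk => ?_⟩
  · rw [← CT_en]
    apply Pool.Agent.H386R2.HL.singularSeries_pos (en_inj _)
    intro p hp
    rw [nu_en]
    exact hA p hp
  · obtain ⟨k, rfl⟩ : ∃ j, k = j + 1 := ⟨k - 1, by omega⟩
    obtain ⟨c, hc, δ, hδ, hδ1, B, hB⟩ := lawV Pool.Agent.Y978.QL.prm Pool.Agent.Y822.Q.int0 k (by omega)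
    obtain ⟨r, hr⟩ := exists_nat_gt (2 / δ)
    have e1 : ∀ᶠ X : ℕ in Filter.atTop, (2 : ℝ) ≤ (X : ℝ) ^ δ :=
      ((tendsto_rpow_atTop hδ).comp tendsto_natCast_atTop_atTop).eventually (Filter.eventually_ge_atTop 2)
    obtain ⟨N₀, hN₀⟩ := eventually_atTop.1 (hB.and e1)
    refine ⟨δ, hδ, r, c, hc, B, max N₀ 3, fun N hN A hA => ?_⟩
    obtain ⟨h1, h2⟩ := hN₀ N ((le_max_left _ _).trans hN)
    have hN3 : 3 ≤ N := (le_max_right _ _).trans hN
    have hN1r : (1 : ℝ) < N := by exact_mod_cast (by omega : 1 < N)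
    have hN3r : (3 : ℝ) ≤ N := by exact_mod_cast hN3
    rw [Nat.add_sub_cancel]
    obtain ⟨z, hz⟩ : ∃ z : ℕ, z = ⌊(N : ℝ) ^ δ⌋₊ := ⟨_, rfl⟩
    have hz2 : 2 ≤ z := by
      rw [hz]
      exact Nat.le_floor (by exact_mod_cast h2)
    have hzlt : ∀ q : ℕ, (N : ℝ) ^ δ < q ↔ z < q := by
      intro q
      rw [hz, Nat.floor_lt (by positivity)]
    refine h1 A hA _ fun H hH => ?_
    rw [mem_filter] at hH
    refine ⟨hH.1, hH.2.1, lt_of_le_of_lt ?_ hH.2.2⟩
    have hHA := (mem_powersetCard.1 hH.1).1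
    rw [← hz]
    unfold cntV count
    norm_cast
    refine card_le_card fun n hn => ?_
    rw [mem_filter, mem_Icc] at hn ⊢
    obtain ⟨hn1, hn2, hn3⟩ := hn
    refine ⟨hn1, hn2, fun h hh => ?_⟩
    have hq : ∀ q : ℕ, q.Prime → q ∣ n + h → (N : ℝ) ^ δ < q := by
      intro q hqp hqd
      rw [hzlt]
      by_contra hle
      exact hn3 h hh q hqp (not_lt.1 hle) hqd
    refine ⟨?_, hq⟩
    refine Pool.Agent.Y822.F.len_le (N := N) (w := δ) (by omega) hδ.le (by omega) ?_ (fun q hqp hqd => (hq q hqp hqd).le)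
    have h6 : ((n + h : ℕ) : ℝ) ≤ (N : ℝ) ^ (2 : ℝ) := by
      have h7 : n + h ≤ 2 * N := by
        have := hA h (hHA hh)
        omega
      have h8 : ((n + h : ℕ) : ℝ) ≤ 2 * N := by exact_mod_cast h7
      rw [Real.rpow_two]
      nlinarith
    refine lt_of_le_of_lt h6 ?_
    apply Real.rpow_lt_rpow_of_exponent_lt hN1r
    rw [div_lt_iff₀ hδ] at hr
    have : δ * ((r : ℝ) + 1) = r * δ + δ := by ring
    rw [this]
    linarith

end Pool.Agent.Results.MP_8923e7_nt.OverAQuarterOfAlmostAllTuples
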